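import Pool.Agent.FS.OneTarget.Game

/-!
The game on one board, with the edges of the board as abstract elements.
-/

namespace Pool.Agent.FS.OneTarget

open Classical

/-- the key edge, the edges at the two roots, the edges at the hubs -/
inductive El
  | k : El
  | s (c : Bool) (i : ℕ) : El
  | e (b : ℕ) (c : Bool) (i : ℕ) : El

open El

/-- copy whose long path starts with the key edge -/
def zu (c : Bool) (b i : ℕ) (j : Fin 3 → ℕ) : Option (Bool × Option (Fin 3)) → El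
  | none => k
  | some (false, none) => s (!c) i
  | some (true, none) => e b (!c) i
  | some (false, some t) => s c (j t)
  | some (true, some t) => e b c (j t)

/-- copy whose long path has the key edge in the middle -/
def zm (r : Bool → ℕ) (h : Fin 3 → ℕ) : Option (Bool × Option (Fin 3)) → El
  | none => k
  | some (c, none) => s c (r c)
  | some (c, some t) => e (h t) c (r c)

/-- the set contains a copy of the target -/
def Win (X : Set El) : Prop :=
  (∃ c b i j, Function.Injective j ∧ ∀ x, zu c b i j x ∈ X) ∨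
    ∃ r h, Function.Injective h ∧ ∀ x, zm r h x ∈ X

theorem Win.mono {X Y : Set El} (h : Win X) (hs : X ⊆ Y) : Win Y := by
  rcases h with ⟨c, b, i, j, h1, h2⟩ | ⟨r, h, h1, h2⟩
  exacts [Or.inl ⟨c, b, i, j, h1, fun x => hs (h2 x)⟩, Or.inr ⟨r, h, h1, fun x => hs (h2 x)⟩]

theorem Win.key {X : Set El} (h : Win X) : k ∈ X := by
  rcases h with ⟨c, b, i, j, _, h2⟩ | ⟨r, h, _, h2⟩
  exacts [h2 none, h2 none]

theorem zu_inj (c : Bool) (b i : ℕ) {j : Fin 3 → ℕ} (hj : Function.Injective j) :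
    Function.Injective (zu c b i j) := by
  rintro (_ | ⟨_ | _, _ | x⟩) (_ | ⟨_ | _, _ | y⟩) h <;> simp [zu, hj.eq_iff] at h ⊢ <;> exact h

theorem zm_inj (r : Bool → ℕ) {h : Fin 3 → ℕ} (hh : Function.Injective h) :
    Function.Injective (zm r h) := by
  rintro (_ | ⟨c, _ | x⟩) (_ | ⟨d, _ | y⟩) g <;> simp [zm, hh.eq_iff] at g ⊢
  exacts [g.1, ⟨g.2.1, g.1⟩]

theorem range_eq {z : Option (Bool × Option (Fin 3)) → El} (hz : Function.Injective z)
    {X : Set El} (hX : X.Finite) (h : ∀ x, z x ∈ X) :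
    9 ≤ X.ncard ∧ (X.ncard ≤ 9 → ∀ y ∈ X, ∃ x, z x = y) := by
  have h9 : (Set.range z).ncard = 9 := by
    rw [← Set.image_univ, Set.ncard_image_of_injective _ hz, Set.ncard_univ]
    simp
  have hs : Set.range z ⊆ X := by rintro _ ⟨x, rfl⟩; exact h x
  refine ⟨h9 ▸ Set.ncard_le_ncard hs hX, fun h2 y hy => ?_⟩
  have := Set.eq_of_subset_of_ncard_le hs (h9 ▸ h2) hX
  rw [← this] at hy
  exact hy

theorem Win.card {X : Set El} (h : Win X) (hX : X.Finite) : 9 ≤ X.ncard := by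
  rcases h with ⟨c, b, i, j, h1, h2⟩ | ⟨r, h, h1, h2⟩
  exacts [(range_eq (zu_inj c b i h1) hX h2).1, (range_eq (zm_inj r h1) hX h2).1]

/-- the owner of `X` cannot finish with one move -/
def NT (X Y : Set El) : Prop := ∀ f, f ∉ Y → ¬ Win (insert f X)

/-- the owner of `X` cannot finish with two moves -/
def NT2 (X Y : Set El) : Prop := ∀ e f, e ∉ Y → f ∉ Y → ¬ Win (insert f (insert e X))

/-- the owner of `X` is held by a pairing `p` on the set `D` -/
def Pr (X Y : Set El) : Prop := ∃ (D : Set El) (p : El → El) (C : Set El → Prop),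
  (∀ d ∈ D, p (p d) = d ∧ p d ≠ d ∧ p d ∈ D) ∧ (∀ Z, C Z → ∀ d ∈ D, C (insert d Z)) ∧
  (∀ Z, C Z → ∀ a f, Win (insert f (insert a Z)) → ∃ T, T ⊆ insert f (insert a Z) ∧ Win T ∧
    ∀ z ∈ T, z ∈ Z ∨ (z ∈ D ∧ p z ∈ T)) ∧
  C X ∧ ¬ Win X ∧ ∀ d ∈ D, d ∈ X → p d ∈ X ∨ p d ∈ Y

theorem Pr.nt {X Y : Set El} (h : Pr X Y) : NT X Y := by
  obtain ⟨D, p, C, h1, -, h3, h4, h5, h6⟩ := h
  intro f hf hw
  obtain ⟨T, t1, t2, t3⟩ := h3 X h4 f f (by simpa using hw)
  refine h5 (t2.mono fun z hz => ?_)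
  rcases t3 z hz with h | ⟨d1, d2⟩
  · exact h
  by_contra hn
  have zf : z = f := by simpa [hn] using t1 hz
  subst zf
  have : p z ∈ X := by simpa [(h1 z d1).2.1] using t1 d2
  have := h6 _ (h1 z d1).2.2 this
  rw [(h1 z d1).1] at this
  exact this.elim hn hf

theorem Pr.step {X Y : Set El} (h : Pr X Y) {a : El} (hX : a ∉ X) (hY : a ∉ Y) :
    NT (insert a X) Y ∨ ∃ g, g ∉ insert a X ∧ g ∉ Y ∧ Pr (insert a X) (insert g Y) := by
  have nt := h.nt
  obtain ⟨D, p, C, h1, h2, h3, h4, h5, h6⟩ := h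
  by_cases hD : a ∈ D
  · have pX : p a ∉ X := fun hp => by
      have := h6 _ (h1 a hD).2.2 hp
      rw [(h1 a hD).1] at this
      exact this.elim hX hY
    have nw : ∀ Y', Y ⊆ Y' → p a ∈ Y' → Pr (insert a X) Y' := fun Y' s1 s2 =>
      ⟨D, p, C, h1, h2, h3, h2 X h4 a hD, nt a hY, by
        rintro d hd (rfl | hd2)
        exacts [Or.inr s2, (h6 d hd hd2).imp (fun k => Or.inr k) fun k => s1 k]⟩
    by_cases hp : p a ∈ Y
    · exact Or.inl (nw Y subset_rfl hp).nt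
    · exact Or.inr ⟨p a, by simp [pX, (h1 a hD).2.1], hp,
        nw _ (Set.subset_insert _ _) (Set.mem_insert _ _)⟩
  · refine Or.inl fun f hf hw => ?_
    obtain ⟨T, t1, t2, t3⟩ := h3 X h4 a f hw
    refine nt f hf (t2.mono fun z hz => ?_)
    rcases t1 hz with h | rfl | h
    exacts [Or.inl h, ((t3 z hz).elim hX fun k => hD k.1).elim, Or.inr h]

theorem four {Z : Set El} {a f x y z : El} (hx : x ∈ insert f (insert a Z))
    (hy : y ∈ insert f (insert a Z)) (hz : z ∈ insert f (insert a Z)) (nx : x ∉ Z) (ny : y ∉ Z)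
    (nz : z ∉ Z) (h1 : x ≠ y) (h2 : x ≠ z) (h3 : y ≠ z) : False := by
  simp only [Set.mem_insert_iff, nx, ny, nz, or_false] at hx hy hz
  rcases hx with rfl | rfl <;> rcases hy with rfl | rfl <;> rcases hz with rfl | rfl <;> simp_all

theorem two_ne {j : Fin 3 → ℕ} (hj : Function.Injective j) (b : ℕ) :
    ∃ t u, t ≠ u ∧ j t ≠ b ∧ j u ≠ b := by
  by_cases h0 : j 0 = b
  · exact ⟨1, 2, by decide, fun h => absurd (hj (h.trans h0.symm)) (by decide),
      fun h => absurd (hj (h.trans h0.symm)) (by decide)⟩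
  by_cases h1 : j 1 = b
  · exact ⟨0, 2, by decide, h0, fun h => absurd (hj (h.trans h1.symm)) (by decide)⟩
  · exact ⟨0, 1, by decide, h0, h1⟩

/-- partner at the hub `b` -/
def pu (b : ℕ) : El → El
  | k => k
  | s c i => e b c i
  | e _ c i => s c i

theorem pr_u {X Y : Set El} (b : ℕ) (hk : k ∈ X) (hb : ∀ b' c i, e b' c i ∈ X → b' = b)
    (hw : ¬ Win X) (h1 : ∀ c i, s c i ∈ X → e b c i ∈ X ∨ e b c i ∈ Y)
    (h2 : ∀ c i, e b c i ∈ X → s c i ∈ X ∨ s c i ∈ Y) : Pr X Y := by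
  refine ⟨{d | ∃ c i, d = s c i ∨ d = e b c i}, pu b,
    fun Z => k ∈ Z ∧ ∀ b' c i, e b' c i ∈ Z → b' = b, ?_, ?_, ?_, ⟨hk, hb⟩, hw, ?_⟩
  · rintro d ⟨c, i, rfl | rfl⟩
    exacts [⟨rfl, by simp [pu], c, i, Or.inr rfl⟩, ⟨rfl, by simp [pu], c, i, Or.inl rfl⟩]
  · rintro Z ⟨z1, z2⟩ d ⟨c, i, rfl | rfl⟩
    · exact ⟨Or.inr z1, fun b' c' i' h => z2 b' c' i' (by simpa using h)⟩
    · refine ⟨Or.inr z1, fun b' c' i' h => ?_⟩
      rcases h with h | h
      exacts [by injection h, z2 b' c' i' h]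
  · rintro Z ⟨z1, z2⟩ a f (⟨c, b', i, j, j1, j2⟩ | ⟨r, h, j1, j2⟩)
    · obtain rfl : b' = b := by
        by_contra hn
        exact four (j2 (some (true, some 0))) (j2 (some (true, some 1))) (j2 (some (true, some 2)))
          (fun k => hn (z2 _ _ _ k)) (fun k => hn (z2 _ _ _ k)) (fun k => hn (z2 _ _ _ k))
          (by simp [zu, j1.eq_iff]) (by simp [zu, j1.eq_iff]) (by simp [zu, j1.eq_iff])
      refine ⟨Set.range (zu c b' i j), by rintro _ ⟨x, rfl⟩; exact j2 x,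
        Or.inl ⟨c, b', i, j, j1, fun x => ⟨x, rfl⟩⟩, ?_⟩
      rintro _ ⟨_ | ⟨_ | _, _ | t⟩, rfl⟩
      exacts [Or.inl z1, Or.inr ⟨⟨_, _, Or.inl rfl⟩, some (true, none), rfl⟩,
        Or.inr ⟨⟨_, _, Or.inl rfl⟩, some (true, some t), rfl⟩,
        Or.inr ⟨⟨_, _, Or.inr rfl⟩, some (false, none), rfl⟩,
        Or.inr ⟨⟨_, _, Or.inr rfl⟩, some (false, some t), rfl⟩]
    · obtain ⟨t, u, t1, t2, t3⟩ := two_ne j1 b
      exact (four (j2 (some (true, some t))) (j2 (some (false, some t))) (j2 (some (true, some u)))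
        (fun k => t2 (z2 _ _ _ k)) (fun k => t2 (z2 _ _ _ k)) (fun k => t3 (z2 _ _ _ k))
        (by simp [zm]) (by simp [zm, j1.eq_iff, t1]) (by simp [zm])).elim
  · rintro d ⟨c, i, rfl | rfl⟩ hd
    exacts [h1 c i hd, h2 c i hd]

theorem far {Z : Set El} {r : Bool → ℕ} (z1 : ∀ c i, s c i ∈ Z → i = r c)
    (z2 : ∀ b c i, e b c i ∈ Z → i = r c) {a f : El} (h : Win (insert f (insert a Z))) :
    ∃ h, Function.Injective h ∧ ∀ x, zm r h x ∈ insert f (insert a Z) := by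
  rcases h with ⟨c, b', i, j, j1, j2⟩ | ⟨r', h, j1, j2⟩
  · obtain ⟨t, u, t1, t2, t3⟩ := two_ne j1 (r c)
    exact (four (j2 (some (true, some t))) (j2 (some (false, some t))) (j2 (some (true, some u)))
      (fun k => t2 (z2 _ _ _ k)) (fun k => t2 (z1 _ _ k)) (fun k => t3 (z2 _ _ _ k))
      (by simp [zu]) (by simp [zu, j1.eq_iff, t1]) (by simp [zu])).elim
  · obtain rfl : r' = r := by
      funext c
      by_contra hn
      exact four (j2 (some (c, some 0))) (j2 (some (c, some 1))) (j2 (some (c, some 2)))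
        (fun k => hn (z2 _ _ _ k)) (fun k => hn (z2 _ _ _ k)) (fun k => hn (z2 _ _ _ k))
        (by simp [zm, j1.eq_iff]) (by simp [zm, j1.eq_iff]) (by simp [zm, j1.eq_iff])
    exact ⟨h, j1, j2⟩

/-- partner at the pair of vertices `r` -/
def pm (r : Bool → ℕ) : El → El
  | k => k
  | s c i => s c i
  | e b c _ => e b (!c) (r (!c))

theorem pr_m {X Y : Set El} (r : Bool → ℕ) (hk : k ∈ X) (hs : ∀ c, s c (r c) ∈ X)
    (z1 : ∀ c i, s c i ∈ X → i = r c) (z2 : ∀ b c i, e b c i ∈ X → i = r c) (hw : ¬ Win X)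
    (h1 : ∀ b c, e b c (r c) ∈ X → e b (!c) (r (!c)) ∈ X ∨ e b (!c) (r (!c)) ∈ Y) : Pr X Y := by
  refine ⟨{d | ∃ b c, d = e b c (r c)}, pm r,
    fun Z => k ∈ Z ∧ (∀ c, s c (r c) ∈ Z) ∧ (∀ c i, s c i ∈ Z → i = r c) ∧
      ∀ b c i, e b c i ∈ Z → i = r c, ?_, ?_, ?_, ⟨hk, hs, z1, z2⟩, hw, ?_⟩
  · rintro d ⟨b, c, rfl⟩
    exact ⟨by simp [pm], by simp [pm], b, !c, rfl⟩
  · rintro Z ⟨y0, y1, y2, y3⟩ d ⟨b, c, rfl⟩
    refine ⟨Or.inr y0, fun c' => Or.inr (y1 c'), fun c' i' h => y2 c' i' (by simpa using h),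
      fun b' c' i' h => ?_⟩
    rcases h with h | h
    · injection h with _ e2 e3
      rw [e3, e2]
    · exact y3 b' c' i' h
  · rintro Z ⟨y0, y1, y2, y3⟩ a f hw
    obtain ⟨h, j1, j2⟩ := far y2 y3 hw
    refine ⟨Set.range (zm r h), by rintro _ ⟨x, rfl⟩; exact j2 x,
      Or.inr ⟨r, h, j1, fun x => ⟨x, rfl⟩⟩, ?_⟩
    rintro _ ⟨_ | ⟨c, _ | t⟩, rfl⟩
    exacts [Or.inl y0, Or.inl (y1 c), Or.inr ⟨⟨_, _, rfl⟩, some (!c, some t), rfl⟩]
  · rintro d ⟨b, c, rfl⟩ hd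
    exact h1 b c hd

/-- the first threat -/
theorem first {X Y : Set El} (hX : X.Finite) (hc : X.ncard ≤ 8) :
    NT X Y ∨ ∃ g, g ∉ X ∧ g ∉ Y ∧ (NT2 X (insert g Y) ∨ Pr X (insert g Y)) := by
  by_cases hn : NT X Y
  · exact Or.inl hn
  right
  obtain ⟨f, hf, hw⟩ : ∃ f, f ∉ Y ∧ Win (insert f X) := by
    by_contra h
    exact hn fun f hf hw => h ⟨f, hf, hw⟩
  have nw : ¬ Win X := fun h => by have := h.card hX; omega
  have fX : f ∉ X := fun h => nw (by rwa [Set.insert_eq_of_mem h] at hw)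
  have c9 : (insert f X).ncard ≤ 9 := (Set.ncard_insert_le _ _).trans (by omega)
  refine ⟨f, fX, hf, ?_⟩
  by_cases fk : f = k
  · subst fk
    refine Or.inl fun a g ha hg h => ?_
    rcases h.key with h | h | h
    exacts [hg (h ▸ Set.mem_insert _ _), ha (h ▸ Set.mem_insert _ _), fX h]
  have hk : k ∈ X := hw.key.resolve_left (Ne.symm fk)
  have sw : ∀ x, x ∈ insert f X → x ∈ X ∨ x ∈ insert f Y := fun x hx =>
    hx.elim (fun h => Or.inr (Or.inl h)) Or.inl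
  rcases hw with ⟨c, b, i, j, j1, j2⟩ | ⟨r, h, j1, j2⟩
  · have all := fun y hy => (range_eq (zu_inj c b i j1) (hX.insert f) j2).2 c9 y (Or.inr hy)
    refine Or.inr (pr_u b hk (fun b' c' i' h => ?_) nw (fun c' i' h => ?_) fun c' i' h => ?_)
    · obtain ⟨_ | ⟨_ | _, _ | t⟩, g⟩ := all _ h <;> simp [zu] at g <;> exact g.1.symm
    · obtain ⟨_ | ⟨_ | _, _ | t⟩, g⟩ := all _ h <;> simp only [zu, reduceCtorEq] at g
      · injection g with g1 g2
        exact g1 ▸ g2 ▸ sw _ (j2 (some (true, none)))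
      · injection g with g1 g2
        exact g1 ▸ g2 ▸ sw _ (j2 (some (true, some t)))
    · obtain ⟨_ | ⟨_ | _, _ | t⟩, g⟩ := all _ h <;> simp only [zu, reduceCtorEq] at g
      · injection g with g0 g1 g2
        exact g1 ▸ g2 ▸ sw _ (j2 (some (false, none)))
      · injection g with g0 g1 g2
        exact g1 ▸ g2 ▸ sw _ (j2 (some (false, some t)))
  · have all := fun y hy => (range_eq (zm_inj r j1) (hX.insert f) j2).2 c9 y (Or.inr hy)
    have z1 : ∀ c i, s c i ∈ X → i = r c := fun c i g => by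
      obtain ⟨_ | ⟨d, _ | t⟩, g⟩ := all _ g <;> simp only [zm, reduceCtorEq] at g
      injection g with g1 g2
      rw [← g2, g1]
    have z2 : ∀ b c i, e b c i ∈ X → i = r c := fun b c i g => by
      obtain ⟨_ | ⟨d, _ | t⟩, g⟩ := all _ g <;> simp only [zm, reduceCtorEq] at g
      injection g with g0 g1 g2
      rw [← g2, g1]
    by_cases hs : ∀ c, s c (r c) ∈ X
    · refine Or.inr (pr_m r hk hs z1 z2 nw fun b c g => ?_)
      obtain ⟨_ | ⟨d, _ | t⟩, g⟩ := all _ g <;> simp only [zm, reduceCtorEq] at g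
      injection g with g0 g1 g2
      exact g0 ▸ sw _ (j2 (some (!c, some t)))
    · obtain ⟨c, hc⟩ := not_forall.1 hs
      have ef : s c (r c) = f := (j2 (some (c, none))).resolve_right hc
      refine Or.inl fun a g ha hg hw => ?_
      obtain ⟨h', -, j3⟩ := far z1 z2 hw
      rcases j3 (some (c, none)) with q | q | q
      exacts [hg (Or.inl (q.symm.trans ef)), ha (Or.inl (q.symm.trans ef)), hc q]

end Pool.Agent.FS.OneTarget
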