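import Mathlib

/-!
Positional games: from invariants to plays and strategies.
-/

namespace Pool.Agent.FS.OneTarget

open Classical

/-- moves of one parity before a given time -/
def pt2 {α : Type} (m : ℕ → α) (r n : ℕ) : Set α := {e | ∃ i < n, i % 2 = r ∧ m i = e}

theorem pt2_finite {α : Type} (m : ℕ → α) (r n : ℕ) : (pt2 m r n).Finite :=
  ((Set.finite_Iio n).image m).subset fun _ ⟨i, hi, _, h⟩ => ⟨i, hi, h⟩

theorem pt2_hit {α : Type} (m : ℕ → α) {r n : ℕ} (h : n % 2 = r) :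
    pt2 m r (n + 1) = insert (m n) (pt2 m r n) := by
  ext e
  constructor
  · rintro ⟨i, hi, h1, rfl⟩
    rcases Nat.lt_succ_iff_lt_or_eq.1 hi with hi | rfl
    exacts [Or.inr ⟨i, hi, h1, rfl⟩, Or.inl rfl]
  · rintro (rfl | ⟨i, hi, h1, rfl⟩)
    exacts [⟨n, by omega, h, rfl⟩, ⟨i, by omega, h1, rfl⟩]

theorem pt2_miss {α : Type} (m : ℕ → α) {r n : ℕ} (h : n % 2 ≠ r) :
    pt2 m r (n + 1) = pt2 m r n := by
  ext e
  constructor
  · rintro ⟨i, hi, h1, rfl⟩
    rcases Nat.lt_succ_iff_lt_or_eq.1 hi with hi | rfl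
    exacts [⟨i, hi, h1, rfl⟩, absurd h1 h]
  · rintro ⟨i, hi, h1, rfl⟩
    exact ⟨i, by omega, h1, rfl⟩

theorem exists_play2 {α : Type} (σ : List α → α) (τ : Set α → Set α → α) : ∃ m : ℕ → α,
    (∀ n, m (2 * n) = σ ((List.range (2 * n)).map m)) ∧
    ∀ n, m (2 * n + 1) = τ (pt2 m 0 (2 * n + 1)) (pt2 m 1 (2 * n + 1)) := by
  let nx : List α → α := fun l => if l.length % 2 = 0 then σ l else
    τ (pt2 (fun i => l.getD i (σ [])) 0 l.length) (pt2 (fun i => l.getD i (σ [])) 1 l.length)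
  let h : ℕ → List α := fun n => Nat.rec [] (fun _ l => l ++ [nx l]) n
  have e : ∀ n, h n = (List.range n).map fun i => nx (h i) := by
    intro n
    induction n with
    | zero => rfl
    | succ n ih => rw [List.range_succ, List.map_append, ← ih]; rfl
  have len : ∀ n, (h n).length = n := fun n => by rw [e]; simp
  have pt : ∀ r n, pt2 (fun i => (h n).getD i (σ [])) r n = pt2 (fun i => nx (h i)) r n := by
    intro r n
    ext z
    refine exists_congr fun i => and_congr_right fun hi => ?_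
    rw [e n]
    simp [List.getD_eq_getElem?_getD, hi]
  refine ⟨fun i => nx (h i), fun n => ?_, fun n => ?_⟩
  · rw [← e]
    exact if_pos (by rw [len]; omega)
  · show nx (h (2 * n + 1)) = _
    rw [← pt, ← pt]
    simp only [nx, len]
    exact if_neg (by omega)

theorem no_win2 {α : Type} {L : α → Prop} {W : Set α → Prop} {S : Set α → Set α → Prop}
    (hW : ∀ A B, W A → A ⊆ B → W B) (hL : ∀ A : Set α, A.Finite → ∃ g, L g ∧ g ∉ A)
    (hS : ∀ R B e, R.Finite → B.Finite → S R B → L e → e ∉ R → e ∉ B → ¬ W (insert e R) ∧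
      ∃ g, L g ∧ g ∉ insert e R ∧ g ∉ B ∧ (W (insert g B) ∨ S (insert e R) (insert g B)))
    (h0 : S ∅ ∅) (σ : List α → α) : ∃ m : ℕ → α,
    (∀ n, m (2 * n) = σ ((List.range (2 * n)).map m)) ∧
    (∀ n, L (m (2 * n + 1)) ∧ ∀ i, i < 2 * n + 1 → m i ≠ m (2 * n + 1)) ∧
    ∀ N, (∀ j, j ≤ N → Even j → L (m j) ∧ ∀ i, i < j → m i ≠ m j) →
      W (pt2 m 0 (N + 1)) → W (pt2 m 1 N) := by
  have ex : ∀ R B : Set α, ∃ f, R.Finite → B.Finite → L f ∧ f ∉ R ∧ f ∉ B ∧
      (W B ∨ (∃ g, L g ∧ g ∉ R ∧ g ∉ B ∧ (W (insert g B) ∨ S R (insert g B))) →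
        W (insert f B) ∨ S R (insert f B)) := by
    intro R B
    by_cases hG : ∃ g, L g ∧ g ∉ R ∧ g ∉ B ∧ (W (insert g B) ∨ S R (insert g B))
    · obtain ⟨g, g1, g2, g3, g4⟩ := hG
      exact ⟨g, fun _ _ => ⟨g1, g2, g3, fun _ => g4⟩⟩
    by_cases hf : R.Finite ∧ B.Finite
    · obtain ⟨g, g1, g2⟩ := hL _ (hf.1.union hf.2)
      exact ⟨g, fun _ _ => ⟨g1, fun k => g2 (Or.inl k), fun k => g2 (Or.inr k),
        fun k => Or.inl (hW _ _ (k.resolve_right hG) (Set.subset_insert _ _))⟩⟩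
    · exact ⟨σ [], fun a b => absurd ⟨a, b⟩ hf⟩
  choose τ hτ using ex
  obtain ⟨m, h1, h2⟩ := exists_play2 σ τ
  have ans := fun n => hτ _ _ (pt2_finite m 0 (2 * n + 1)) (pt2_finite m 1 (2 * n + 1))
  simp only [← h2] at ans
  refine ⟨m, h1, fun n => ⟨(ans n).1, fun i hi e => ?_⟩, fun N hN hH => ?_⟩
  · rcases Nat.mod_two_eq_zero_or_one i with h | h
    exacts [(ans n).2.1 ⟨i, hi, h, e⟩, (ans n).2.2.1 ⟨i, hi, h, e⟩]
  have step := fun n (hn : 2 * n ≤ N) (hs : S (pt2 m 0 (2 * n)) (pt2 m 1 (2 * n))) =>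
    hS _ _ (m (2 * n)) (pt2_finite _ _ _) (pt2_finite _ _ _) hs (hN (2 * n) hn (even_two_mul n)).1
      (fun ⟨i, hi, _, e⟩ => (hN (2 * n) hn (even_two_mul n)).2 i hi e)
      fun ⟨i, hi, _, e⟩ => (hN (2 * n) hn (even_two_mul n)).2 i hi e
  have inv : ∀ n, 2 * n ≤ N → W (pt2 m 1 (2 * n)) ∨ S (pt2 m 0 (2 * n)) (pt2 m 1 (2 * n)) := by
    intro n
    induction n with
    | zero =>
      intro _
      have : ∀ r, pt2 m r (2 * 0) = ∅ := fun r => Set.eq_empty_of_forall_notMem fun _ ⟨i, hi, _⟩ => by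
        omega
      rw [this, this]
      exact Or.inr h0
    | succ n ih =>
      intro hn
      rw [show 2 * (n + 1) = 2 * n + 1 + 1 by ring, pt2_hit m (r := 1) (by omega),
        pt2_miss m (r := 0) (by omega)]
      refine (ans n).2.2.2 ?_
      rw [pt2_hit m (r := 0) (by omega), pt2_miss m (r := 1) (by omega)]
      exact (ih (by omega)).imp_right fun k => (step n (by omega) k).2
  rcases inv (N / 2) (by omega) with h | h
  · refine hW _ _ h ?_
    rintro _ ⟨i, hi, a, rfl⟩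
    exact ⟨i, by omega, a, rfl⟩
  · refine absurd (hW _ _ hH ?_) (step _ (by omega) h).1
    rw [← pt2_hit m (by omega)]
    rintro _ ⟨i, hi, a, rfl⟩
    exact ⟨i, by omega, a, rfl⟩

theorem pt2_getD {α : Type} (m : ℕ → α) (d : α) (r n : ℕ) :
    pt2 (fun i => ((List.range n).map m).getD i d) r n = pt2 m r n := by
  ext z
  refine exists_congr fun i => and_congr_right fun hi => ?_
  simp [List.getD_eq_getElem?_getD, hi]

theorem win_rank {α : Type} {L : α → Prop} {M : ℕ → Set α → Set α → Prop} (d : α)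
    (hM : ∀ r X Y, X.Finite → Y.Finite → M (r + 1) X Y → ∃ g, L g ∧ g ∉ X ∧ g ∉ Y ∧
      ∀ f, L f → f ∉ insert g X → M r (insert g X) (insert f Y))
    (K : ℕ) (h0 : M K ∅ ∅) : ∃ σ : List α → α, ∀ m : ℕ → α,
    (∀ n, m (2 * n) = σ ((List.range (2 * n)).map m)) →
    (∀ n, L (m (2 * n + 1)) ∧ ∀ i, i < 2 * n + 1 → m i ≠ m (2 * n + 1)) →
    (∀ n, n < K → L (m (2 * n)) ∧ ∀ i, i < 2 * n → m i ≠ m (2 * n)) ∧
      M 0 (pt2 m 0 (2 * K)) (pt2 m 1 (2 * K)) := by
  have ex : ∀ (r : ℕ) (X Y : Set α), ∃ g, X.Finite → Y.Finite → M (r + 1) X Y →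
      L g ∧ g ∉ X ∧ g ∉ Y ∧ ∀ f, L f → f ∉ insert g X → M r (insert g X) (insert f Y) := by
    intro r X Y
    by_cases h : X.Finite ∧ Y.Finite ∧ M (r + 1) X Y
    · obtain ⟨g, hg⟩ := hM r X Y h.1 h.2.1 h.2.2
      exact ⟨g, fun _ _ _ => hg⟩
    · exact ⟨d, fun a b c => absurd ⟨a, b, c⟩ h⟩
  choose τ hτ using ex
  refine ⟨fun l => τ (K - l.length / 2 - 1) (pt2 (fun i => l.getD i d) 0 l.length)
    (pt2 (fun i => l.getD i d) 1 l.length), fun m h1 h2 => ?_⟩
  have e : ∀ n, m (2 * n) = τ (K - n - 1) (pt2 m 0 (2 * n)) (pt2 m 1 (2 * n)) := by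
    intro n
    rw [h1 n]
    simp only [List.length_map, List.length_range, pt2_getD]
    rw [show 2 * n / 2 = n by omega]
  have st : ∀ n, n < K → M (K - n) (pt2 m 0 (2 * n)) (pt2 m 1 (2 * n)) →
      L (m (2 * n)) ∧ m (2 * n) ∉ pt2 m 0 (2 * n) ∧ m (2 * n) ∉ pt2 m 1 (2 * n) ∧
        ∀ f, L f → f ∉ insert (m (2 * n)) (pt2 m 0 (2 * n)) →
          M (K - n - 1) (insert (m (2 * n)) (pt2 m 0 (2 * n))) (insert f (pt2 m 1 (2 * n))) := by
    intro n hn h
    rw [e n]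
    exact hτ _ _ _ (pt2_finite _ _ _) (pt2_finite _ _ _)
      (by rwa [show K - n - 1 + 1 = K - n by omega])
  have inv : ∀ n, n ≤ K → M (K - n) (pt2 m 0 (2 * n)) (pt2 m 1 (2 * n)) := by
    intro n
    induction n with
    | zero =>
      intro _
      have : ∀ r, pt2 m r (2 * 0) = ∅ := fun r => Set.eq_empty_of_forall_notMem fun _ ⟨i, hi, _⟩ => by
        omega
      rw [this, this]
      exact h0
    | succ n ih =>
      intro hn
      rw [show 2 * (n + 1) = 2 * n + 1 + 1 by ring, pt2_hit m (r := 1) (by omega),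
        pt2_miss m (r := 0) (by omega), pt2_hit m (r := 0) (by omega),
        pt2_miss m (r := 1) (by omega)]
      refine (st n (by omega) (ih (by omega))).2.2.2 _ (h2 n).1 ?_
      rintro (k | ⟨i, hi, _, k⟩)
      exacts [(h2 n).2 _ (by omega) k.symm, (h2 n).2 i (by omega) k]
  refine ⟨fun n hn => ?_, by simpa using inv K le_rfl⟩
  obtain ⟨a, b, c, -⟩ := st n hn (inv n hn.le)
  refine ⟨a, fun i hi k => ?_⟩
  rcases Nat.mod_two_eq_zero_or_one i with h | h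
  exacts [b ⟨i, hi, h, k⟩, c ⟨i, hi, h, k⟩]

theorem pre_ins {α γ : Type} {em : γ → α} (h : Function.Injective em) (x : γ) (R : Set α) :
    em ⁻¹' insert (em x) R = insert x (em ⁻¹' R) := by
  ext z
  simp [h.eq_iff]

end Pool.Agent.FS.OneTarget
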