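import Pool.Agent.FS.OneTarget.Two

/-!
The board (a blown-up pentagon) and the target (a theta graph).
-/

namespace Pool.Agent.FS.OneTarget

open Classical El

/-- three paths of length two and one of length three between `p` and `q` -/
def Th {U : Type} (S : Set (Sym2 U)) : Prop := ∃ (p q a b : U) (w : Fin 3 → U),
  Function.Injective w ∧ p ≠ q ∧ p ≠ a ∧ p ≠ b ∧ q ≠ a ∧ q ≠ b ∧ a ≠ b ∧
  (∀ t, w t ≠ p ∧ w t ≠ q ∧ w t ≠ a ∧ w t ≠ b) ∧
  s(p, a) ∈ S ∧ s(a, b) ∈ S ∧ s(q, b) ∈ S ∧ ∀ t, s(p, w t) ∈ S ∧ s(q, w t) ∈ S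

/-- the target graph -/
def HH : SimpleGraph (Fin 7) := SimpleGraph.fromRel fun a b =>
  (a.val < 2 ∧ 4 ≤ b.val) ∨ (a.val = 0 ∧ b.val = 2) ∨ (a.val = 2 ∧ b.val = 3) ∨
    (a.val = 1 ∧ b.val = 3)

theorem hh_adj (a b : Fin 7) : HH.Adj a b ↔ a ≠ b ∧ (((a.val < 2 ∧ 4 ≤ b.val) ∨
    (a.val = 0 ∧ b.val = 2) ∨ (a.val = 2 ∧ b.val = 3) ∨ (a.val = 1 ∧ b.val = 3)) ∨
    ((b.val < 2 ∧ 4 ≤ a.val) ∨ (b.val = 0 ∧ a.val = 2) ∨ (b.val = 2 ∧ a.val = 3) ∨
    (b.val = 1 ∧ a.val = 3))) := SimpleGraph.fromRel_adj _ a b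

theorem hh_conn : HH.Connected := by
  have r : ∀ a b : Fin 7, HH.Adj a b → HH.Reachable a b := fun a b h => h.reachable
  have h : ∀ a : Fin 7, HH.Reachable 0 a := by
    have e2 := r 0 2 (by rw [hh_adj]; decide)
    have e4 := r 0 4 (by rw [hh_adj]; decide)
    intro a
    fin_cases a
    exacts [SimpleGraph.Reachable.refl _, e4.trans (r 4 1 (by rw [hh_adj]; decide)), e2,
      e2.trans (r 2 3 (by rw [hh_adj]; decide)), e4, r 0 5 (by rw [hh_adj]; decide),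
      r 0 6 (by rw [hh_adj]; decide)]
  exact SimpleGraph.Connected.mk fun a b => (h a).symm.trans (h b)

theorem th_iff {U : Type} (S : Set (Sym2 U)) : (∃ f : Fin 7 → U, Function.Injective f ∧
    ∀ a b, HH.Adj a b → s(f a, f b) ∈ S) ↔ Th S := by
  constructor
  · rintro ⟨f, f1, f2⟩
    refine ⟨f 0, f 1, f 2, f 3, fun t => f (t.natAdd 4), f1.comp (Fin.natAdd_injective _ _),
      f1.ne (by decide), f1.ne (by decide), f1.ne (by decide), f1.ne (by decide),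
      f1.ne (by decide), f1.ne (by decide), fun t => ⟨f1.ne ?_, f1.ne ?_, f1.ne ?_, f1.ne ?_⟩,
      f2 _ _ ?_, f2 _ _ ?_, f2 _ _ ?_, fun t => ⟨f2 _ _ ?_, f2 _ _ ?_⟩⟩
    all_goals first
      | (rw [hh_adj]; first | decide | (revert t; decide))
      | (revert t; decide)
  · rintro ⟨p, q, a, b, w, w1, n1, n2, n3, n4, n5, n6, n7, e1, e2, e3, e4⟩
    have x0 := n7 0
    have x1 := n7 1
    have x2 := n7 2
    have y1 : w 0 ≠ w 1 := w1.ne (by decide)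
    have y2 : w 0 ≠ w 2 := w1.ne (by decide)
    have y3 : w 1 ≠ w 2 := w1.ne (by decide)
    refine ⟨![p, q, a, b, w 0, w 1, w 2], ?_, ?_⟩
    · have nd : List.Nodup [p, q, a, b, w 0, w 1, w 2] := by
        simp [n1, n2, n3, n4, n5, n6, y1, y2, y3, x0.1.symm, x0.2.1.symm, x0.2.2.1.symm,
          x0.2.2.2.symm, x1.1.symm, x1.2.1.symm, x1.2.2.1.symm, x1.2.2.2.symm, x2.1.symm,
          x2.2.1.symm, x2.2.2.1.symm, x2.2.2.2.symm]
      exact List.nodup_ofFn.1 (by simpa [List.ofFn_succ] using nd)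
    · have sw : ∀ {x y : U}, s(x, y) ∈ S → s(y, x) ∈ S := fun h => by rwa [Sym2.eq_swap]
      intro x y h
      rw [hh_adj] at h
      fin_cases x <;> fin_cases y <;> first
        | exact absurd h (by decide)
        | exact e1 | exact e2 | exact e3 | exact sw e1 | exact sw e2 | exact sw e3
        | exact (e4 _).1 | exact (e4 _).2 | exact sw (e4 _).1 | exact sw (e4 _).2

theorem Th.map {U W : Type} {g : U → W} (hg : Function.Injective g) {S : Set (Sym2 U)}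
    {T : Set (Sym2 W)} (h : Th S) (hs : ∀ x y, s(x, y) ∈ S → s(g x, g y) ∈ T) : Th T := by
  obtain ⟨p, q, a, b, w, w1, n1, n2, n3, n4, n5, n6, n7, e1, e2, e3, e4⟩ := h
  exact ⟨g p, g q, g a, g b, fun t => g (w t), hg.comp w1, hg.ne n1, hg.ne n2, hg.ne n3, hg.ne n4,
    hg.ne n5, hg.ne n6, fun t => ⟨hg.ne (n7 t).1, hg.ne (n7 t).2.1, hg.ne (n7 t).2.2.1,
      hg.ne (n7 t).2.2.2⟩, hs _ _ e1, hs _ _ e2, hs _ _ e3,
    fun t => ⟨hs _ _ (e4 t).1, hs _ _ (e4 t).2⟩⟩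

/-- vertices: two roots, their neighbours, the hubs -/
inductive Vx
  | root (c : Bool) : Vx
  | rt (c : Bool) (i : ℕ) : Vx
  | hub (b : ℕ) : Vx

open Vx

theorem vx_countable : Countable Vx := by
  refine Function.Injective.countable (f := fun v : Vx => match v with
    | root c => ((0, c, 0) : ℕ × Bool × ℕ) | rt c i => (1, c, i) | hub b => (2, false, b)) ?_
  rintro (_ | _ | _) (_ | _ | _) h <;> simp_all

/-- the edges of the board -/
def ed : El → Sym2 Vx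
  | k => s(root false, root true)
  | s c i => s(root c, rt c i)
  | e b c i => s(hub b, rt c i)

theorem ed_inj : Function.Injective ed := by
  rintro (_ | _ | _) (_ | _ | _) h <;> simp_all [ed]

/-- the board -/
def BB : SimpleGraph Vx := SimpleGraph.fromEdgeSet (Set.range ed)

theorem bb_adj (x y : Vx) : BB.Adj x y ↔ ∃ z, ed z = s(x, y) := by
  rw [BB, SimpleGraph.fromEdgeSet_adj]
  refine ⟨fun h => h.1, fun ⟨z, h⟩ => ⟨⟨z, h⟩, ?_⟩⟩
  rintro rfl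
  rcases z with _ | _ | _ <;> simp [ed] at h <;> obtain ⟨rfl, h⟩ := h <;> simp at h

theorem bb_edge (x : Sym2 Vx) : x ∈ BB.edgeSet ↔ ∃ z, ed z = x := by
  induction x using Sym2.ind with
  | _ x y => exact bb_adj x y

theorem bb_conn : BB.Connected := by
  have r : ∀ z x y, ed z = s(x, y) → BB.Reachable x y := fun z x y h =>
    ((bb_adj x y).2 ⟨z, h⟩).reachable
  have h0 : ∀ c, BB.Reachable (root false) (root c) := by
    rintro (_ | _)
    exacts [SimpleGraph.Reachable.refl _, r k _ _ rfl]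
  have h1 : ∀ c i, BB.Reachable (root false) (rt c i) := fun c i => (h0 c).trans (r (s c i) _ _ rfl)
  have h : ∀ v, BB.Reachable (root false) v := by
    rintro (c | ⟨c, i⟩ | b)
    exacts [h0 c, h1 c i, (h1 false 0).trans (r (e b false 0) _ _ rfl).symm]
  haveI : Nonempty Vx := ⟨hub 0⟩
  exact SimpleGraph.Connected.mk fun a b => (h a).symm.trans (h b)

theorem inv_root {X : Set El} {c : Bool} {y : Vx} (h : s(root c, y) ∈ ed '' X) :
    (y = root (!c) ∧ k ∈ X) ∨ ∃ i, y = rt c i ∧ s c i ∈ X := by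
  obtain ⟨_ | ⟨d, i⟩ | _, z, h⟩ := h
  · left
    cases c <;> simp [ed] at h <;> exact ⟨h.symm, z⟩
  · simp [ed] at h
    obtain ⟨rfl, rfl⟩ := h
    exact Or.inr ⟨i, rfl, z⟩
  · simp [ed] at h

theorem inv_rt {X : Set El} {c : Bool} {i : ℕ} {y : Vx} (h : s(rt c i, y) ∈ ed '' X) :
    (y = root c ∧ s c i ∈ X) ∨ ∃ b, y = hub b ∧ e b c i ∈ X := by
  obtain ⟨_ | ⟨d, j⟩ | ⟨b, d, j⟩, z, h⟩ := h
  · simp [ed] at h
  · simp [ed] at h
    obtain ⟨rfl, rfl, rfl⟩ := h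
    exact Or.inl ⟨rfl, z⟩
  · simp [ed] at h
    obtain ⟨rfl, rfl, rfl⟩ := h
    exact Or.inr ⟨b, rfl, z⟩

theorem inv_hub {X : Set El} {b : ℕ} {y : Vx} (h : s(hub b, y) ∈ ed '' X) :
    ∃ c i, y = rt c i ∧ e b c i ∈ X := by
  obtain ⟨_ | _ | ⟨b', d, j⟩, z, h⟩ := h
  · simp [ed] at h
  · simp [ed] at h
  · simp [ed] at h
    obtain ⟨rfl, rfl⟩ := h
    exact ⟨d, j, rfl, z⟩

theorem sw' {U : Type} {S : Set (Sym2 U)} {x y : U} (h : s(x, y) ∈ S) : s(y, x) ∈ S := by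
  rwa [Sym2.eq_swap]

theorem win_root {X : Set El} {c : Bool} {q a b : Vx} {w : Fin 3 → Vx}
    (w1 : Function.Injective w) (n1 : root c ≠ q) (e1 : s(root c, a) ∈ ed '' X)
    (e2 : s(a, b) ∈ ed '' X) (e3 : s(q, b) ∈ ed '' X) (n3 : root c ≠ b)
    (e4 : ∀ t, s(root c, w t) ∈ ed '' X ∧ s(q, w t) ∈ ed '' X) : Win X := by
  obtain ⟨t, i, ht⟩ : ∃ t i, w t = rt c i := by
    rcases inv_root (e4 0).1 with ⟨h0, -⟩ | ⟨i, h0, -⟩
    · rcases inv_root (e4 1).1 with ⟨h1, -⟩ | ⟨i, h1, -⟩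
      exacts [absurd (w1 (h0.trans h1.symm)) (by decide), ⟨1, i, h1⟩]
    · exact ⟨0, i, h0⟩
  obtain ⟨g, rfl⟩ : ∃ g, q = hub g := by
    rcases inv_rt (sw' (ht ▸ (e4 t).2)) with ⟨h, -⟩ | ⟨g, h, -⟩
    exacts [absurd h.symm n1, ⟨g, h⟩]
  have pg : ∀ t, ∃ j, w t = rt c j ∧ s c j ∈ X ∧ e g c j ∈ X := fun t => by
    obtain ⟨d, j, h1, h2⟩ := inv_hub (e4 t).2
    rcases inv_root (e4 t).1 with ⟨h, -⟩ | ⟨j', h, h3⟩
    · simp [h1] at h
    · rw [h1] at h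
      injection h with g1 g2
      subst g1 g2
      exact ⟨j, h1, h3, h2⟩
  choose j j1 j2 j3 using pg
  obtain ⟨d, i', rfl, h2⟩ := inv_hub e3
  rcases inv_root e1 with ⟨rfl, hk⟩ | ⟨i'', rfl, -⟩
  · rcases inv_root e2 with ⟨h, -⟩ | ⟨i'', h, h3⟩
    · simp at h
    · injection h with g1 g2
      subst g1 g2
      refine Or.inl ⟨c, g, i', j, fun x y h => w1 (by rw [j1, j1, h]), ?_⟩
      rintro (_ | ⟨_ | _, _ | t⟩)
      exacts [hk, h3, j2 t, h2, j3 t]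
  · rcases inv_rt e2 with ⟨h, -⟩ | ⟨_, h, -⟩ <;> simp at h

theorem win_of_th {X : Set El} (h : Th (ed '' X)) : Win X := by
  obtain ⟨p, q, a, b, w, w1, n1, n2, n3, n4, n5, n6, n7, e1, e2, e3, e4⟩ := h
  rcases p with c | ⟨c, i⟩ | g
  · exact win_root w1 n1 e1 e2 e3 n3 e4
  · obtain ⟨t, g, ht⟩ : ∃ t g, w t = hub g := by
      rcases inv_rt (e4 0).1 with ⟨h0, -⟩ | ⟨i, h0, -⟩
      · rcases inv_rt (e4 1).1 with ⟨h1, -⟩ | ⟨i, h1, -⟩
        exacts [absurd (w1 (h0.trans h1.symm)) (by decide), ⟨1, i, h1⟩]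
      · exact ⟨0, i, h0⟩
    obtain ⟨d, i', rfl, -⟩ := inv_hub (sw' (ht ▸ (e4 t).2))
    rcases inv_rt e1 with ⟨rfl, s1⟩ | ⟨g', rfl, -⟩
    · rcases inv_root e2 with ⟨rfl, hk⟩ | ⟨i'', rfl, -⟩
      · rcases inv_rt e3 with ⟨h, s2⟩ | ⟨_, h, -⟩
        · injection h with h
          subst h
          have pg : ∀ t, ∃ g, w t = hub g ∧ e g c i ∈ X ∧ e g (!c) i' ∈ X := fun t => by
            rcases inv_rt (e4 t).1 with ⟨h, -⟩ | ⟨g, h, h3⟩
            · exact absurd h (n7 t).2.2.1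
            · rcases inv_rt (e4 t).2 with ⟨h', -⟩ | ⟨g', h', h4⟩
              · simp [h] at h'
              · rw [h] at h'
                injection h' with h'
                exact ⟨g, h, h3, h' ▸ h4⟩
          choose j j1 j2 j3 using pg
          refine Or.inr ⟨fun d => if d = c then i else i', j,
            fun x y h => w1 (by rw [j1, j1, h]), ?_⟩
          rintro (_ | ⟨d, _ | t⟩)
          · exact hk
          · cases c <;> cases d <;> first | exact s1 | exact s2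
          · cases c <;> cases d <;> first | exact j2 t | exact j3 t
        · simp at h
      · rcases inv_rt e3 with ⟨h, -⟩ | ⟨_, h, -⟩ <;> simp at h
    · obtain ⟨_, _, rfl, -⟩ := inv_hub e2
      rcases inv_rt e3 with ⟨h, -⟩ | ⟨_, h, -⟩ <;> simp at h
  · obtain ⟨d, i, h0, -⟩ := inv_hub (e4 0).1
    rcases inv_rt (sw' (h0 ▸ (e4 0).2)) with ⟨rfl, -⟩ | ⟨g', rfl, -⟩
    · exact win_root w1 n1.symm e3 (sw' e2) e1 n4 fun t => (e4 t).symm
    · obtain ⟨_, _, rfl, -⟩ := inv_hub e1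
      obtain ⟨_, _, rfl, -⟩ := inv_hub e3
      rcases inv_rt e2 with ⟨h, -⟩ | ⟨_, h, -⟩ <;> simp at h

theorem th_of_win {X : Set El} (h : Win X) : Th (ed '' X) := by
  rcases h with ⟨c, b, i, j, j1, j2⟩ | ⟨r, h, j1, j2⟩
  · refine ⟨root c, hub b, root (!c), rt (!c) i, fun t => rt c (j t),
      fun x y q => j1 (by injection q), by simp, by simp, by simp, by simp, by simp, by simp,
      fun t => by simp, ⟨_, j2 none, ?_⟩, ⟨_, j2 (some (false, none)), rfl⟩,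
      ⟨_, j2 (some (true, none)), rfl⟩,
      fun t => ⟨⟨_, j2 (some (false, some t)), rfl⟩, ⟨_, j2 (some (true, some t)), rfl⟩⟩⟩
    cases c
    exacts [rfl, Sym2.eq_swap]
  · exact ⟨rt false (r false), rt true (r true), root false, root true, fun t => hub (h t),
      fun x y q => j1 (by injection q), by simp, by simp, by simp, by simp, by simp, by simp,
      fun t => by simp, sw' ⟨_, j2 (some (false, none)), rfl⟩, ⟨_, j2 none, rfl⟩,
      sw' ⟨_, j2 (some (true, none)), rfl⟩,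
      fun t => ⟨sw' ⟨_, j2 (some (false, some t)), rfl⟩, sw' ⟨_, j2 (some (true, some t)), rfl⟩⟩⟩

/-- the two copies of the vertex set -/
def io : Bool → Vx → Vx ⊕ Vx
  | false => Sum.inl
  | true => Sum.inr

theorem io_inj (β : Bool) : Function.Injective (io β) := by
  cases β
  exacts [Sum.inl_injective, Sum.inr_injective]

/-- the edges of the double board -/
def em (x : Bool × El) : Sym2 (Vx ⊕ Vx) := Sym2.map (io x.1) (ed x.2)

theorem em_nb {x : Bool × El} {β : Bool} {u : Vx} {y : Vx ⊕ Vx} (h : em x = s(io β u, y)) :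
    x.1 = β ∧ ∃ v, y = io β v ∧ ed x.2 = s(u, v) := by
  obtain ⟨γ, z⟩ := x
  obtain ⟨a, b, hz⟩ : ∃ a b, ed z = s(a, b) := by
    induction ed z using Sym2.ind with
    | _ a b => exact ⟨a, b, rfl⟩
  simp only [em, hz, Sym2.map_mk, Sym2.eq_iff] at h ⊢
  cases β <;> cases γ <;> simp [io] at h ⊢ <;> rcases h with ⟨rfl, rfl⟩ | ⟨rfl, rfl⟩ <;> simp

theorem em_inj : Function.Injective em := by
  rintro ⟨β, z⟩ ⟨γ, y⟩ h
  obtain ⟨a, b, hz⟩ : ∃ a b, ed y = s(a, b) := by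
    induction ed y using Sym2.ind with
    | _ a b => exact ⟨a, b, rfl⟩
  obtain ⟨h1, v, h2, h3⟩ := em_nb (x := (β, z)) (β := γ) (u := a) (y := io γ b)
    (by rw [h, em, hz]; rfl)
  obtain rfl := io_inj γ h2
  exact Prod.ext h1 (ed_inj (h3.trans hz.symm))

theorem sum_edge (x : Sym2 (Vx ⊕ Vx)) : x ∈ (BB ⊕g BB).edgeSet ↔ ∃ z, em z = x := by
  induction x using Sym2.ind with
  | _ x y =>
    rw [SimpleGraph.mem_edgeSet]
    constructor
    · intro h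
      rcases x with x | x <;> rcases y with y | y <;> simp at h
      · obtain ⟨z, hz⟩ := (bb_adj _ _).1 h
        exact ⟨(false, z), by rw [em, hz]; rfl⟩
      · obtain ⟨z, hz⟩ := (bb_adj _ _).1 h
        exact ⟨(true, z), by rw [em, hz]; rfl⟩
    · rintro ⟨z, hz⟩
      rcases x with x | x
      · obtain ⟨-, v, rfl, h⟩ := em_nb (β := false) hz
        simpa [io] using (bb_adj _ _).2 ⟨_, h⟩
      · obtain ⟨-, v, rfl, h⟩ := em_nb (β := true) hz
        simpa [io] using (bb_adj _ _).2 ⟨_, h⟩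

theorem win2_of_th {S : Set (Sym2 (Vx ⊕ Vx))} (hS : ∀ x ∈ S, ∃ z, em z = x) (h : Th S) :
    Win2 (em ⁻¹' S) := by
  obtain ⟨p, q, a, b, w, w1, n1, n2, n3, n4, n5, n6, n7, e1, e2, e3, e4⟩ := h
  obtain ⟨β, p, rfl⟩ : ∃ β u, p = io β u := by
    rcases p with p | p
    exacts [⟨false, p, rfl⟩, ⟨true, p, rfl⟩]
  have nb : ∀ u y, s(io β u, y) ∈ S → ∃ v, y = io β v ∧ s(u, v) ∈ ed '' sd β (em ⁻¹' S) := by
    intro u y h
    obtain ⟨⟨γ, z⟩, hz⟩ := hS _ h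
    obtain ⟨rfl, v, h1, h2⟩ := em_nb hz
    exact ⟨v, h1, z, show em _ ∈ S from hz ▸ h, h2⟩
  obtain ⟨a, rfl, f1⟩ := nb _ _ e1
  obtain ⟨b, rfl, f2⟩ := nb _ _ e2
  obtain ⟨q, rfl, f3⟩ := nb _ _ (sw' e3)
  choose v v1 v2 using fun t => nb _ _ (e4 t).1
  have ne : ∀ {x y}, io β x ≠ io β y → x ≠ y := fun h g => h (congrArg _ g)
  refine ⟨β, win_of_th ⟨p, q, a, b, v, fun x y g => w1 (by rw [v1, v1, g]), ne n1, ne n2, ne n3,
    ne n4, ne n5, ne n6, fun t => ⟨ne (v1 t ▸ (n7 t).1), ne (v1 t ▸ (n7 t).2.1),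
      ne (v1 t ▸ (n7 t).2.2.1), ne (v1 t ▸ (n7 t).2.2.2)⟩, f1, f2, sw' f3, fun t => ⟨v2 t, ?_⟩⟩⟩
  obtain ⟨u, u1, u2⟩ := nb _ _ (e4 t).2
  rwa [io_inj β ((v1 t).symm.trans u1)]

theorem th_of_win2 {S : Set (Sym2 (Vx ⊕ Vx))} (h : Win2 (em ⁻¹' S)) : Th S := by
  obtain ⟨β, h⟩ := h
  refine (th_of_win h).map (io_inj β) ?_
  rintro x y ⟨z, h1, h2⟩
  have : em (β, z) = s(io β x, io β y) := by rw [em, h2]; rfl
  exact this ▸ h1

end Pool.Agent.FS.OneTarget
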