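import Pool.Agent.FS.OneTarget.Abs

/-!
The abstract game: a win on one board, no win on two boards.
-/

namespace Pool.Agent.FS.OneTarget

open Classical El

theorem fresh {g : ℕ → El} (hg : Function.Injective g) {A : Set El} (hA : A.Finite) :
    ∃ i, g i ∉ A := by
  obtain ⟨i, hi⟩ := (hA.preimage hg.injOn).exists_notMem
  exact ⟨i, hi⟩

theorem fresh2 {A : Set El} (hA : A.Finite) (b : ℕ) (c : Bool) :
    ∃ i, s c i ∉ A ∧ e b c i ∉ A := by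
  have h1 : Function.Injective (s c) := fun _ _ h => by injection h
  have h2 : Function.Injective (e b c) := fun _ _ h => by injection h
  obtain ⟨i, hi⟩ := ((hA.preimage h1.injOn).union (hA.preimage h2.injOn)).exists_notMem
  exact ⟨i, fun h => hi (Or.inl h), fun h => hi (Or.inr h)⟩

/-- hub of an element -/
def hubOf : El → ℕ
  | e b _ _ => b
  | _ => 0

theorem fresh_hub {A : Set El} (hA : A.Finite) : ∃ b, ∀ c i, e b c i ∉ A := by
  obtain ⟨b, hb⟩ := (hA.image hubOf).exists_notMem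
  exact ⟨b, fun c i h => hb ⟨_, h, rfl⟩⟩

theorem win_of {X : Set El} {F : Finset ℕ} {b i : ℕ} (hF : 3 ≤ F.card) (hk : k ∈ X)
    (h1 : s true i ∈ X) (h2 : e b true i ∈ X) (h3 : ∀ j ∈ F, s false j ∈ X ∧ e b false j ∈ X) :
    Win X := by
  obtain ⟨j, j1⟩ := Function.Embedding.exists_of_card_le_finset
    (α := Fin 3) (s := F) (by simpa using hF)
  refine Or.inl ⟨false, b, i, j, j.injective, ?_⟩
  rintro (_ | ⟨_ | _, _ | t⟩)
  exacts [hk, h1, (h3 _ (j1 ⟨t, rfl⟩)).1, h2, (h3 _ (j1 ⟨t, rfl⟩)).2]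

/-- the plan of the first player on one board, `r` moves before the end -/
def Pl (r : ℕ) (X Y : Set El) : Prop :=
  (r = 12 ∧ k ∉ X ∧ k ∉ Y) ∨ (k ∈ X ∧ k ∉ Y ∧
    ((5 ≤ r ∧ ∃ F : Finset ℕ, (∀ j ∈ F, s false j ∈ X) ∧ 11 ≤ F.card + r) ∨
    (r = 4 ∧ ∃ (F : Finset ℕ) (i : ℕ), (∀ j ∈ F, s false j ∈ X) ∧ 6 ≤ F.card ∧ s true i ∈ X) ∨
    ∃ (F G : Finset ℕ) (b i : ℕ), s true i ∈ X ∧ e b true i ∈ X ∧
      (∀ j ∈ F, s false j ∈ X ∧ e b false j ∈ X) ∧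
      (∀ j ∈ G, s false j ∈ X ∧ e b false j ∉ X ∧ e b false j ∉ Y) ∧
      3 ≤ F.card + r ∧ 2 * r ≤ G.card + 1))

theorem filt (G : Finset ℕ) (b : ℕ) (f : El) :
    G.card ≤ (G.filter fun j => e b false j ≠ f).card + 1 := by
  rw [← Finset.card_filter_add_card_filter_not (s := G) (fun j => e b false j ≠ f)]
  refine Nat.add_le_add_left (Finset.card_le_one.2 fun x hx y hy => ?_) _
  simp only [Finset.mem_filter, not_not] at hx hy
  have := hx.2.trans hy.2.symm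
  injection this

theorem Pl.step (r : ℕ) (X Y : Set El) (hX : X.Finite) (hY : Y.Finite) (h : Pl (r + 1) X Y) :
    ∃ g, g ∉ X ∧ g ∉ Y ∧ ∀ f, f ∉ insert g X → Pl r (insert g X) (insert f Y) := by
  have kk : ∀ g f, k ∈ insert g X → k ∉ Y → f ∉ insert g X → k ∉ insert f Y := fun g f a b c d =>
    d.elim (fun q => c (q ▸ a)) b
  rcases h with ⟨h1, h2, h3⟩ | ⟨k1, k2, ⟨h1, F, h2, h3⟩ | ⟨h1, F, i, h2, h3, h4⟩ |
    ⟨F, G, b, i, h1, h2, h3, h4, h5, h6⟩⟩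
  · exact ⟨k, h2, h3, fun f hf => Or.inr ⟨Or.inl rfl, kk _ _ (Or.inl rfl) h3 hf,
      Or.inl ⟨by omega, ∅, by simp, by omega⟩⟩⟩
  · by_cases h5 : 5 ≤ r
    · obtain ⟨j, j1, -⟩ := fresh2 (hX.union hY) 0 false
      have jF : j ∉ F := fun q => j1 (Or.inl (h2 j q))
      refine ⟨_, fun q => j1 (Or.inl q), fun q => j1 (Or.inr q), fun f hf =>
        Or.inr ⟨Or.inr k1, kk _ _ (Or.inr k1) k2 hf, Or.inl ⟨h5, insert j F, fun x hx => ?_, ?_⟩⟩⟩
      · rcases Finset.mem_insert.1 hx with rfl | hx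
        exacts [Or.inl rfl, Or.inr (h2 x hx)]
      · rw [Finset.card_insert_of_notMem jF]; omega
    · obtain ⟨j, j1, -⟩ := fresh2 (hX.union hY) 0 true
      exact ⟨_, fun q => j1 (Or.inl q), fun q => j1 (Or.inr q), fun f hf =>
        Or.inr ⟨Or.inr k1, kk _ _ (Or.inr k1) k2 hf, Or.inr (Or.inl ⟨by omega, F, j,
          fun x hx => Or.inr (h2 x hx), by omega, Or.inl rfl⟩)⟩⟩
  · obtain ⟨b, hb⟩ := fresh_hub (hX.union hY)
    refine ⟨e b true i, fun q => hb _ _ (Or.inl q), fun q => hb _ _ (Or.inr q), fun f hf =>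
      Or.inr ⟨Or.inr k1, kk _ _ (Or.inr k1) k2 hf, Or.inr (Or.inr ⟨∅,
        F.filter fun j => e b false j ≠ f, b, i, Or.inr h4, Or.inl rfl, by simp,
        fun j hj => ?_, by omega, by have := filt F b f; omega⟩)⟩⟩
    rw [Finset.mem_filter] at hj
    exact ⟨Or.inr (h2 j hj.1), fun q => q.elim (by simp) fun q => hb _ _ (Or.inl q),
      fun q => q.elim hj.2 fun q => hb _ _ (Or.inr q)⟩
  · obtain ⟨j, hj⟩ : G.Nonempty := Finset.card_pos.1 (by omega)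
    have jF : j ∉ F := fun q => (h4 j hj).2.1 (h3 j q).2
    refine ⟨e b false j, (h4 j hj).2.1, (h4 j hj).2.2, fun f hf =>
      Or.inr ⟨Or.inr k1, kk _ _ (Or.inr k1) k2 hf, Or.inr (Or.inr ⟨insert j F,
        (G.erase j).filter fun j => e b false j ≠ f, b, i, Or.inr h1, Or.inr h2,
        fun x hx => ?_, fun x hx => ?_, ?_, ?_⟩)⟩⟩
    · rcases Finset.mem_insert.1 hx with rfl | hx
      exacts [⟨Or.inr (h4 x hj).1, Or.inl rfl⟩, ⟨Or.inr (h3 x hx).1, Or.inr (h3 x hx).2⟩]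
    · rw [Finset.mem_filter, Finset.mem_erase] at hx
      exact ⟨Or.inr (h4 x hx.1.2).1, fun q => q.elim (by simpa using hx.1.1) (h4 x hx.1.2).2.1,
        fun q => q.elim hx.2 (h4 x hx.1.2).2.2⟩
    · rw [Finset.card_insert_of_notMem jF]; omega
    · have := filt (G.erase j) b f
      rw [Finset.card_erase_of_mem hj] at this
      omega

theorem Pl.fin {X Y : Set El} (h : Pl 0 X Y) : Win X ∧ k ∉ Y := by
  rcases h with ⟨h1, -⟩ | ⟨k1, k2, ⟨h1, -⟩ | ⟨h1, -⟩ | ⟨F, G, b, i, h1, h2, h3, -, h5, -⟩⟩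
  exacts [by omega, by omega, by omega, ⟨win_of h5 k1 h1 h2 h3, k2⟩]

/-- the owner of `Y` needs at most `n` moves for three pages at the hub `0` -/
def Bd (n : ℕ) (X Y : Set El) : Prop := ∃ F : Finset ℕ,
  (∀ j ∈ F, s false j ∈ Y ∧ e 0 false j ∈ Y) ∧ (6 ≤ n + 2 * F.card ∨
    (6 ≤ n + 2 * F.card + 1 ∧ ∃ j, s false j ∈ Y ∧ e 0 false j ∉ X ∧ e 0 false j ∉ Y))

theorem Bd.block {n : ℕ} {X Y : Set El} (h : Bd n X Y) (X' : Set El) : Bd (n + 1) X' Y := by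
  obtain ⟨F, h1, h2⟩ := h
  exact ⟨F, h1, Or.inl (by rcases h2 with h | ⟨h, -⟩ <;> omega)⟩

theorem Bd.step {n : ℕ} {X Y : Set El} (hX : X.Finite) (hY : Y.Finite) (h : Bd (n + 1) X Y) :
    ∃ g, g ∉ X ∧ g ∉ Y ∧ Bd n X (insert g Y) := by
  obtain ⟨F, h1, h | ⟨h, j, j1, j2, j3⟩⟩ := h
  · obtain ⟨j, j1, j2⟩ := fresh2 (hX.union hY) 0 false
    exact ⟨_, fun q => j1 (Or.inl q), fun q => j1 (Or.inr q), F,
      fun x hx => ⟨Or.inr (h1 x hx).1, Or.inr (h1 x hx).2⟩, Or.inr ⟨by omega, j, Or.inl rfl,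
        fun q => j2 (Or.inl q), fun q => q.elim (by simp) fun q => j2 (Or.inr q)⟩⟩
  · refine ⟨_, j2, j3, insert j F, fun x hx => ?_, Or.inl ?_⟩
    · rcases Finset.mem_insert.1 hx with rfl | hx
      exacts [⟨Or.inr j1, Or.inl rfl⟩, ⟨Or.inr (h1 x hx).1, Or.inr (h1 x hx).2⟩]
    · rw [Finset.card_insert_of_notMem fun q => j3 (h1 j q).2]; omega

theorem Bd.zero {X Y : Set El} (h : Bd 0 X Y) (X' : Set El) {Y' : Set El} (hs : Y ⊆ Y') :
    Bd 0 X' Y' ∧ ∀ i, k ∈ Y' → s true i ∈ Y' → e 0 true i ∈ Y' → Win Y' := by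
  obtain ⟨F, h1, h2⟩ := h
  have h3 : 3 ≤ F.card := by rcases h2 with h | ⟨h, -⟩ <;> omega
  have h4 : ∀ j ∈ F, s false j ∈ Y' ∧ e 0 false j ∈ Y' := fun j hj => ⟨hs (h1 j hj).1, hs (h1 j hj).2⟩
  exact ⟨⟨F, h4, Or.inl (by omega)⟩, fun i a b c => win_of h3 a b c h4⟩

/-- first player to move: he owns `A` on his board and `X` on hers, she owns `C` and `Y` -/
def St (A C X Y : Set El) : Prop := k ∈ Y ∧ k ∉ X ∧
  ((∃ n, Bd n X Y ∧ A.ncard + n ≤ 7) ∨ (Bd 0 X Y ∧ (NT2 A C ∨ Pr A C)) ∨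
    (Bd 0 X Y ∧ NT A C ∧ ∃ i, s true i ∈ Y ∧ e 0 true i ∉ X ∧ e 0 true i ∉ Y))

theorem St.nt {A C X Y : Set El} (h : St A C X Y) (hA : A.Finite) : NT A C := by
  rcases h.2.2 with ⟨n, -, h⟩ | ⟨-, h | h⟩ | ⟨-, h, -⟩
  · intro f _ hw
    have := hw.card (hA.insert f)
    have := Set.ncard_insert_le f A
    omega
  · exact fun f hf hw => h f f hf hf (by simpa using hw)
  exacts [h.nt, h]

theorem pump {A C X Y : Set El} (hX : X.Finite) (hY : Y.Finite) (k1 : k ∈ Y) (k2 : k ∉ X)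
    (h : Bd 0 X Y) (nt : NT A C) : ∃ g, g ∉ X ∧ g ∉ Y ∧ St A C X (insert g Y) := by
  obtain ⟨i, i1, i2⟩ := fresh2 (hX.union hY) 0 true
  exact ⟨_, fun q => i1 (Or.inl q), fun q => i1 (Or.inr q), Or.inr k1, k2, Or.inr (Or.inr
    ⟨(h.zero X (Set.subset_insert _ _)).1, nt, i, Or.inl rfl, fun q => i2 (Or.inl q),
      fun q => q.elim (by simp) fun q => i2 (Or.inr q)⟩)⟩

/-- he moves on her board -/
theorem St.her {A C X Y : Set El} (h : St A C X Y) (hX : X.Finite) (hY : Y.Finite) {a : El}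
    (ha : a ∉ Y) : ∃ g, g ∉ insert a X ∧ g ∉ Y ∧
      (Win (insert g Y) ∨ St A C (insert a X) (insert g Y)) := by
  obtain ⟨k1, k2, h⟩ := h
  have k3 : k ∉ insert a X := fun q => q.elim (fun q => ha (q ▸ k1)) k2
  rcases h with ⟨n, h1, h2⟩ | ⟨h1, h2⟩ | ⟨h1, h2, i, i1, i2, i3⟩
  · obtain ⟨g, g1, g2, g3⟩ := (h1.block (insert a X)).step (hX.insert a) hY
    exact ⟨g, g1, g2, Or.inr ⟨Or.inr k1, k3, Or.inl ⟨n, g3, h2⟩⟩⟩
  · obtain ⟨g, g1, g2, g3⟩ := (h1.block (insert a X)).step (hX.insert a) hY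
    exact ⟨g, g1, g2, Or.inr ⟨Or.inr k1, k3, Or.inr (Or.inl ⟨g3, h2⟩)⟩⟩
  · by_cases q : e 0 true i = a
    · obtain ⟨g, g1, g2, g3⟩ := pump (hX.insert a) hY k1 k3 (h1.zero _ subset_rfl).1 h2
      exact ⟨g, g1, g2, Or.inr g3⟩
    · exact ⟨_, fun w => w.elim q i2, i3, Or.inl ((h1.zero X (Set.subset_insert _ _)).2 i
        (Or.inr k1) (Or.inr i1) (Or.inl rfl))⟩

/-- he moves on his board -/
theorem St.his {A C X Y : Set El} (h : St A C X Y) (hA : A.Finite) (hX : X.Finite)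
    (hY : Y.Finite) {a : El} (h1 : a ∉ A) (h2 : a ∉ C) :
    (∃ g, g ∉ X ∧ g ∉ Y ∧ (Win (insert g Y) ∨ St (insert a A) C X (insert g Y))) ∨
      ∃ g, g ∉ insert a A ∧ g ∉ C ∧ St (insert a A) (insert g C) X Y := by
  obtain ⟨k1, k2, h⟩ := h
  have pp : Bd 0 X Y → NT (insert a A) C →
      ∃ g, g ∉ X ∧ g ∉ Y ∧ (Win (insert g Y) ∨ St (insert a A) C X (insert g Y)) := fun b n =>
    let ⟨g, g1, g2, g3⟩ := pump hX hY k1 k2 b n; ⟨g, g1, g2, Or.inr g3⟩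
  have hc := Set.ncard_insert_le a A
  rcases h with ⟨_ | n, b, hn⟩ | ⟨b, q | q⟩ | ⟨b, -, i, i1, i2, i3⟩
  · rcases first (Y := C) (hA.insert a) (by omega) with q | ⟨g, g1, g2, g3⟩
    exacts [Or.inl (pp b q), Or.inr ⟨g, g1, g2, k1, k2, Or.inr (Or.inl ⟨b, g3⟩)⟩]
  · obtain ⟨g, g1, g2, g3⟩ := b.step hX hY
    exact Or.inl ⟨g, g1, g2, Or.inr ⟨Or.inr k1, k2, Or.inl ⟨n, g3, by omega⟩⟩⟩
  · exact Or.inl (pp b fun f hf => q a f h2 hf)
  · rcases q.step h1 h2 with q | ⟨g, g1, g2, g3⟩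
    exacts [Or.inl (pp b q), Or.inr ⟨g, g1, g2, k1, k2, Or.inr (Or.inl ⟨b, Or.inr g3⟩)⟩]
  · exact Or.inl ⟨_, i2, i3, Or.inl ((b.zero X (Set.subset_insert _ _)).2 i
      (Or.inr k1) (Or.inr i1) (Or.inl rfl))⟩

/-- the part of a set on one of the two boards -/
def sd (β : Bool) (R : Set (Bool × El)) : Set El := {z | (β, z) ∈ R}

theorem sd_same (β : Bool) (z : El) (R : Set (Bool × El)) :
    sd β (insert (β, z) R) = insert z (sd β R) := by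
  ext x; simp [sd]

theorem sd_ne {β γ : Bool} (h : β ≠ γ) (z : El) (R : Set (Bool × El)) :
    sd β (insert (γ, z) R) = sd β R := by
  ext x; simp [sd, h]

theorem sd_fin (β : Bool) {R : Set (Bool × El)} (h : R.Finite) : (sd β R).Finite :=
  h.preimage (f := Prod.mk β) fun _ _ _ _ q => (Prod.ext_iff.1 q).2

/-- a copy on one of the two boards -/
def Win2 (R : Set (Bool × El)) : Prop := ∃ β, Win (sd β R)

/-- safe positions of the game on two boards -/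
def Sf (R B : Set (Bool × El)) : Prop := (R = ∅ ∧ B = ∅) ∨
  ∃ α β, α ≠ β ∧ St (sd α R) (sd α B) (sd β R) (sd β B)

theorem Sf.step {R B : Set (Bool × El)} (hR : R.Finite) (hB : B.Finite) (h : Sf R B)
    {x : Bool × El} (h1 : x ∉ R) (h2 : x ∉ B) : ¬ Win2 (insert x R) ∧
      ∃ g, g ∉ insert x R ∧ g ∉ B ∧ (Win2 (insert g B) ∨ Sf (insert x R) (insert g B)) := by
  obtain ⟨γ, a⟩ := x
  rcases h with ⟨rfl, rfl⟩ | ⟨α, β, ne, h⟩
  · have c1 : ∀ δ, (sd δ (insert (γ, a) ∅)).ncard ≤ 1 := fun δ => by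
      by_cases q : δ = γ
      · subst q; rw [sd_same]; simp [sd]
      · rw [sd_ne q]; simp [sd]
    refine ⟨fun ⟨δ, w⟩ => ?_, ?_⟩
    · have := w.card (sd_fin δ (hR.insert _))
      have := c1 δ
      omega
    · obtain ⟨β, hβ⟩ : ∃ β, (β, k) ∉ insert (γ, a) (∅ : Set (Bool × El)) :=
        ⟨!γ, by simp⟩
      refine ⟨(β, k), hβ, by simp, Or.inr (Or.inr ⟨!β, β, by simp, ?_, hβ, Or.inl ⟨6, ⟨∅, by simp,
        Or.inl (by simp)⟩, by have := c1 (!β); omega⟩⟩)⟩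
      exact Or.inl rfl
  have nt := h.nt (sd_fin α hR)
  have two : ∀ δ, δ = α ∨ δ = β := by cases α <;> cases β <;> simp_all
  rcases two γ with rfl | rfl
  · refine ⟨fun ⟨δ, w⟩ => ?_, ?_⟩
    · rcases two δ with rfl | rfl
      · rw [sd_same] at w; exact nt a h2 w
      · rw [sd_ne ne.symm] at w; exact h.2.1 w.key
    rcases h.his (sd_fin _ hR) (sd_fin _ hR) (sd_fin _ hB) (a := a) h1 h2 with
      ⟨g, g1, g2, g3⟩ | ⟨g, g1, g2, g3⟩
    · refine ⟨(β, g), fun q => q.elim (fun q => ne (Prod.ext_iff.1 q).1.symm) g1, g2,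
        g3.imp (fun w => ⟨β, by rwa [sd_same]⟩) fun w => Or.inr ⟨γ, β, ne, ?_⟩⟩
      rwa [sd_same, sd_ne ne, sd_ne ne.symm, sd_same]
    · refine ⟨(γ, g), fun q => g1 (q.imp (fun q => (Prod.ext_iff.1 q).2) id), g2,
        Or.inr (Or.inr ⟨γ, β, ne, ?_⟩)⟩
      rwa [sd_same, sd_same, sd_ne ne.symm, sd_ne ne.symm]
  · refine ⟨fun ⟨δ, w⟩ => ?_, ?_⟩
    · rcases two δ with rfl | rfl
      · rw [sd_ne ne] at w
        obtain ⟨i, hi⟩ := fresh (g := s true) (fun _ _ q => by injection q) (sd_fin δ hB)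
        exact nt _ hi (w.mono (Set.subset_insert _ _))
      · rw [sd_same] at w
        rcases w.key with q | q
        exacts [h2 (q ▸ h.1), h.2.1 q]
    obtain ⟨g, g1, g2, g3⟩ := h.her (sd_fin _ hR) (sd_fin _ hB) (a := a) h2
    refine ⟨(γ, g), fun q => g1 (q.imp (fun q => (Prod.ext_iff.1 q).2) id), g2,
      g3.imp (fun w => ⟨γ, by rwa [sd_same]⟩) fun w => Or.inr ⟨α, γ, ne, ?_⟩⟩
    rwa [sd_ne ne, sd_ne ne, sd_same, sd_same]

end Pool.Agent.FS.OneTarget
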